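import Pool.Agent.E8helper29.Zn.Stm

/-!
Project ZN, piece 2 (numerical differentiation of `κ`)
-/

set_option autoImplicit false

namespace Pool.Agent.E8helper99.Zn

open MeasureTheory ProbabilityTheory Pool.Agent.E8helper29.Zn
open scoped Nat

/-- Taylor coefficients of `κ` -/
noncomputable def kc (m : ℕ) : ℝ :=
  2 / Real.sqrt (2 * Real.pi) * ((-1 / 2) ^ m / (m ! : ℝ)) / ((2 * m + 1) * (2 * m + 2))

lemma kc_ne (m : ℕ) : kc m ≠ 0 := by
  have h1 : Real.sqrt (2 * Real.pi) ≠ 0 := (Real.sqrt_pos.2 (by positivity)).ne'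
  have h2 : (m ! : ℝ) ≠ 0 := by exact_mod_cast m.factorial_ne_zero
  have h3 : ((-1 / 2 : ℝ)) ^ m ≠ 0 := pow_ne_zero _ (by norm_num)
  have h4 : (2 * (m : ℝ) + 1) ≠ 0 := by positivity
  have h5 : (2 * (m : ℝ) + 2) ≠ 0 := by positivity
  unfold kc
  exact div_ne_zero (mul_ne_zero (div_ne_zero two_ne_zero h1) (div_ne_zero h3 h2)) (mul_ne_zero h4 h5)

lemma int_pow (t : ℝ) (m : ℕ) :
    ∫ s in (0 : ℝ)..t, (t - s) * s ^ (2 * m) = t ^ (2 * m + 2) / ((2 * m + 1) * (2 * m + 2)) := by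
  have h1 : ∀ s : ℝ, (t - s) * s ^ (2 * m) = t * s ^ (2 * m) - s ^ (2 * m + 1) := fun s => by ring
  simp_rw [h1]
  rw [intervalIntegral.integral_sub (Continuous.intervalIntegrable (by fun_prop) _ _)
    (Continuous.intervalIntegrable (by fun_prop) _ _), intervalIntegral.integral_const_mul, integral_pow, integral_pow]
  have h4 : (2 * (m : ℝ) + 1) ≠ 0 := by positivity
  have h5 : (2 * (m : ℝ) + 2) ≠ 0 := by positivity
  push_cast
  rw [zero_pow (by omega), zero_pow (by omega)]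
  have h6 : (2 * (m : ℝ) + 1 + 1) ≠ 0 := by positivity
  field_simp
  ring

lemma int_sum (t : ℝ) (M : ℕ) :
    2 * ∫ s in (0 : ℝ)..t, (t - s) * ((∑ m ∈ Finset.range M, (-(s ^ 2) / 2) ^ m / (m ! : ℝ)) / Real.sqrt (2 * Real.pi)) =
      ∑ m ∈ Finset.range M, kc m * t ^ (2 * m + 2) := by
  have h1 : ∀ s : ℝ, (t - s) * ((∑ m ∈ Finset.range M, (-(s ^ 2) / 2) ^ m / (m ! : ℝ)) / Real.sqrt (2 * Real.pi)) =
      ∑ m ∈ Finset.range M, (((-1 / 2) ^ m / (m ! : ℝ)) / Real.sqrt (2 * Real.pi)) * ((t - s) * s ^ (2 * m)) := by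
    intro s
    rw [Finset.sum_div, Finset.mul_sum]
    refine Finset.sum_congr rfl fun m _ => ?_
    have h2 : (-(s ^ 2) / 2) ^ m = (-1 / 2) ^ m * s ^ (2 * m) := by
      rw [pow_mul, ← mul_pow]
      congr 1
      ring
    rw [h2]
    ring
  simp_rw [h1]
  rw [intervalIntegral.integral_finsetSum (fun m _ => by
    exact Continuous.intervalIntegrable (by fun_prop) _ _), Finset.mul_sum]
  refine Finset.sum_congr rfl fun m _ => ?_
  rw [intervalIntegral.integral_const_mul, int_pow, kc]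
  ring

lemma taylor (h : Stm1) (M : ℕ) (hM : 1 ≤ M) : ∃ C : ℝ, 0 ≤ C ∧ ∀ t : ℝ,
    |kap t - kap 0 - ∑ m ∈ Finset.range M, kc m * t ^ (2 * m + 2)| ≤ C * t ^ (2 * M + 2) := by
  obtain ⟨h1, h2⟩ := h
  set c' : ℝ := (M.succ : ℝ) * ((M ! : ℝ) * (M : ℝ))⁻¹ with hc'
  have hc'0 : 0 ≤ c' := by positivity
  have hsq : 1 ≤ Real.sqrt (2 * Real.pi) := by
    rw [Real.one_le_sqrt]
    linarith [Real.pi_gt_three]
  have hSn : 0 ≤ ∑ m ∈ Finset.range M, |kc m| := Finset.sum_nonneg fun _ _ => abs_nonneg _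
  refine ⟨2 * c' + 3 + ∑ m ∈ Finset.range M, |kc m|, by positivity, fun t => ?_⟩
  have hev : t ^ (2 * M + 2) = |t| ^ (2 * M + 2) := by
    rw [← abs_pow, abs_of_nonneg]
    exact Even.pow_nonneg ⟨M + 1, by ring⟩ t
  have htn : 0 ≤ t ^ (2 * M + 2) := by rw [hev]; positivity
  rcases le_total |t| 1 with ht | ht
  · have e1 : kap t - kap 0 - ∑ m ∈ Finset.range M, kc m * t ^ (2 * m + 2) =
        2 * ∫ s in (0 : ℝ)..t, (t - s) * ((Real.exp (-(s ^ 2) / 2) -
          ∑ m ∈ Finset.range M, (-(s ^ 2) / 2) ^ m / (m ! : ℝ)) / Real.sqrt (2 * Real.pi)) := by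
      rw [h1 t, ← int_sum, add_sub_cancel_left, ← mul_sub, ← intervalIntegral.integral_sub]
      · congr 1
        refine intervalIntegral.integral_congr fun s _ => ?_
        ring
      · exact Continuous.intervalIntegrable (by fun_prop) _ _
      · exact Continuous.intervalIntegrable (by fun_prop) _ _
    have e2 : |∫ s in (0 : ℝ)..t, (t - s) * ((Real.exp (-(s ^ 2) / 2) -
          ∑ m ∈ Finset.range M, (-(s ^ 2) / 2) ^ m / (m ! : ℝ)) / Real.sqrt (2 * Real.pi))| ≤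
        (|t| * (c' * |t| ^ (2 * M))) * |t - 0| := by
      rw [← Real.norm_eq_abs]
      refine intervalIntegral.norm_integral_le_of_norm_le_const fun s hs => ?_
      have hs1 : |s| ≤ |t| ∧ |t - s| ≤ |t| := by
        rcases le_total 0 t with h0 | h0
        · rw [Set.uIoc_of_le h0] at hs
          rw [abs_of_nonneg hs.1.le, abs_of_nonneg h0, abs_of_nonneg (by linarith [hs.2])]
          exact ⟨hs.2, by linarith [hs.1]⟩
        · rw [Set.uIoc_of_ge h0] at hs
          rw [abs_of_nonpos hs.2, abs_of_nonpos h0, abs_of_nonpos (by linarith [hs.1])]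
          exact ⟨by linarith [hs.1], by linarith [hs.2]⟩
      rw [Real.norm_eq_abs, abs_mul, abs_div, abs_of_nonneg (Real.sqrt_nonneg _)]
      refine mul_le_mul hs1.2 ?_ (by positivity) (abs_nonneg _)
      have h3 : |(-(s ^ 2) / 2)| ≤ 1 := by
        rw [abs_div, abs_neg, abs_of_nonneg (sq_nonneg s), abs_two]
        have : s ^ 2 ≤ 1 := by
          rw [← sq_abs]
          exact pow_le_one₀ (abs_nonneg _) (hs1.1.trans ht)
        linarith
      have h4 := Real.exp_bound h3 (show 0 < M by omega)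
      have h5 : |(-(s ^ 2) / 2)| ^ M ≤ |t| ^ (2 * M) := by
        rw [abs_div, abs_neg, abs_of_nonneg (sq_nonneg s), abs_two, pow_mul]
        refine pow_le_pow_left₀ (by positivity) ?_ _
        have h6 : s ^ 2 ≤ |t| ^ 2 := by
          rw [← sq_abs s]
          exact pow_le_pow_left₀ (abs_nonneg _) hs1.1 _
        have h7 : 0 ≤ s ^ 2 := sq_nonneg s
        linarith
      calc |Real.exp (-(s ^ 2) / 2) - ∑ m ∈ Finset.range M, (-(s ^ 2) / 2) ^ m / (m ! : ℝ)| / Real.sqrt (2 * Real.pi)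
          ≤ |Real.exp (-(s ^ 2) / 2) - ∑ m ∈ Finset.range M, (-(s ^ 2) / 2) ^ m / (m ! : ℝ)| :=
            div_le_self (abs_nonneg _) hsq
        _ ≤ |(-(s ^ 2) / 2)| ^ M * c' := h4
        _ ≤ |t| ^ (2 * M) * c' := mul_le_mul_of_nonneg_right h5 hc'0
        _ = c' * |t| ^ (2 * M) := mul_comm _ _
    rw [e1, abs_mul, abs_two]
    rw [sub_zero] at e2
    have e3 : (|t| * (c' * |t| ^ (2 * M))) * |t| = c' * t ^ (2 * M + 2) := by
      rw [hev]; ring
    rw [e3] at e2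
    nlinarith
  · have hpow : ∀ m ∈ Finset.range M, |kc m * t ^ (2 * m + 2)| ≤ |kc m| * t ^ (2 * M + 2) := by
      intro m hm
      rw [abs_mul, abs_pow, hev]
      refine mul_le_mul_of_nonneg_left (pow_le_pow_right₀ ht ?_) (abs_nonneg _)
      have := Finset.mem_range.1 hm
      omega
    have h3 : |∑ m ∈ Finset.range M, kc m * t ^ (2 * m + 2)| ≤ (∑ m ∈ Finset.range M, |kc m|) * t ^ (2 * M + 2) := by
      refine (Finset.abs_sum_le_sum_abs _ _).trans ?_
      rw [Finset.sum_mul]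
      exact Finset.sum_le_sum hpow
    have h4 := h2 t
    have h5 := h2 0
    rw [abs_zero, zero_add] at h5
    have h6 : |t| ≤ t ^ (2 * M + 2) := by
      rw [hev]
      exact le_self_pow₀ ht (by omega)
    have h7 : 1 ≤ t ^ (2 * M + 2) := ht.trans h6
    have h8 : |kap t - kap 0| ≤ 3 * t ^ (2 * M + 2) := by
      rw [abs_le]
      constructor <;> linarith
    calc |kap t - kap 0 - ∑ m ∈ Finset.range M, kc m * t ^ (2 * m + 2)|
        ≤ |kap t - kap 0| + |∑ m ∈ Finset.range M, kc m * t ^ (2 * m + 2)| := abs_sub _ _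
      _ ≤ 3 * t ^ (2 * M + 2) + (∑ m ∈ Finset.range M, |kc m|) * t ^ (2 * M + 2) := add_le_add h8 h3
      _ ≤ (2 * c' + 3 + ∑ m ∈ Finset.range M, |kc m|) * t ^ (2 * M + 2) := by nlinarith [mul_nonneg hc'0 htn]

lemma weights (k M : ℕ) (hkM : k ≤ M) : ∃ ω : Fin (M + 1) → ℝ,
    ∀ j : ℕ, j ≤ M → ∑ l, ω l * (((l : ℕ) : ℝ)) ^ (2 * j) = if j = k then 1 else 0 := by
  classical
  set v : Fin (M + 1) → ℝ := fun l => ((l : ℕ) : ℝ) ^ 2 with hv
  have hinj : Function.Injective v := by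
    intro a b hab
    have h1 : ((a : ℕ) : ℝ) = ((b : ℕ) : ℝ) := by
      have := (pow_left_inj₀ (Nat.cast_nonneg (a : ℕ)) (Nat.cast_nonneg (b : ℕ)) two_ne_zero).1 hab
      exact this
    exact Fin.ext (by exact_mod_cast h1)
  have hdet : (Matrix.vandermonde v).det ≠ 0 := Matrix.det_vandermonde_ne_zero_iff.2 hinj
  set ω : Fin (M + 1) → ℝ := Matrix.vecMul (Pi.single ⟨k, by omega⟩ 1) (Matrix.vandermonde v)⁻¹ with hω
  refine ⟨ω, fun j hj => ?_⟩
  have h2 : Matrix.vecMul ω (Matrix.vandermonde v) = Pi.single (⟨k, by omega⟩ : Fin (M + 1)) 1 := by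
    rw [hω, Matrix.vecMul_vecMul, Matrix.nonsing_inv_mul _ (isUnit_iff_ne_zero.2 hdet), Matrix.vecMul_one]
  have h3 := congrFun h2 ⟨j, by omega⟩
  rw [Matrix.vecMul, dotProduct] at h3
  have h4 : ∑ l, ω l * (((l : ℕ) : ℝ)) ^ (2 * j) = ∑ l, ω l * Matrix.vandermonde v l ⟨j, by omega⟩ := by
    refine Finset.sum_congr rfl fun l _ => ?_
    rw [Matrix.vandermonde_apply, hv, pow_mul]
  rw [h4, h3, Pi.single_apply]
  simp [Fin.ext_iff]

theorem p2 (h : Stm1) : Stm2 := by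
  intro k M hk hkM
  obtain ⟨ω, hω⟩ := weights k M hkM
  obtain ⟨C, hC, hT⟩ := taylor h M (by omega)
  have hkap := h.2
  set W : ℝ := ∑ l, |ω l| with hW
  have hW0 : 0 ≤ W := Finset.sum_nonneg fun _ _ => abs_nonneg _
  have hMM : (0 : ℝ) ≤ ((M : ℝ) + 1) := by positivity
  refine ⟨ω, kc (k - 1), W * C * ((M : ℝ) + 1) ^ (2 * M + 2) + W * ((M : ℝ) + 1), kc_ne _, by positivity, fun θ => ?_, fun θ => ?_⟩
  · have hev : 0 ≤ θ ^ (2 * M + 2) := Even.pow_nonneg ⟨M + 1, by ring⟩ θ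
    -- the main term
    have e1 : ∑ l, ω l * (kap 0 + ∑ m ∈ Finset.range M, kc m * (((l : ℕ) : ℝ) * θ) ^ (2 * m + 2)) =
        kc (k - 1) * θ ^ (2 * k) := by
      have e2 : ∀ l : Fin (M + 1), ω l * (kap 0 + ∑ m ∈ Finset.range M, kc m * (((l : ℕ) : ℝ) * θ) ^ (2 * m + 2)) =
          kap 0 * (ω l * ((l : ℕ) : ℝ) ^ (2 * 0)) +
            ∑ m ∈ Finset.range M, (kc m * θ ^ (2 * m + 2)) * (ω l * ((l : ℕ) : ℝ) ^ (2 * (m + 1))) := by
        intro l
        rw [mul_add, Finset.mul_sum]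
        congr 1
        · ring
        · refine Finset.sum_congr rfl fun m _ => ?_
          rw [mul_pow]
          ring
      rw [Finset.sum_congr rfl fun l _ => e2 l, Finset.sum_add_distrib, ← Finset.mul_sum, hω 0 (by omega),
        if_neg (by omega), mul_zero, zero_add, Finset.sum_comm]
      have e3 : ∀ m ∈ Finset.range M, ∑ l : Fin (M + 1), (kc m * θ ^ (2 * m + 2)) * (ω l * ((l : ℕ) : ℝ) ^ (2 * (m + 1))) =
          if m = k - 1 then kc (k - 1) * θ ^ (2 * k) else 0 := by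
        intro m hm
        rw [← Finset.mul_sum, hω (m + 1) (by have := Finset.mem_range.1 hm; omega)]
        by_cases h1 : m = k - 1
        · rw [if_pos h1, if_pos (by omega), mul_one, h1]
          congr 2
          omega
        · rw [if_neg h1, if_neg (by omega), mul_zero]
      rw [Finset.sum_congr rfl e3, Finset.sum_ite_eq', if_pos (Finset.mem_range.2 (by omega))]
    have e4 : ∑ l, ω l * kap ((l : ℕ) * θ) - kc (k - 1) * θ ^ (2 * k) =
        ∑ l, ω l * (kap (((l : ℕ) : ℝ) * θ) - kap 0 - ∑ m ∈ Finset.range M, kc m * (((l : ℕ) : ℝ) * θ) ^ (2 * m + 2)) := by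
      rw [← e1, ← Finset.sum_sub_distrib]
      refine Finset.sum_congr rfl fun l _ => ?_
      ring
    rw [e4]
    have e5 : |∑ l, ω l * (kap (((l : ℕ) : ℝ) * θ) - kap 0 - ∑ m ∈ Finset.range M, kc m * (((l : ℕ) : ℝ) * θ) ^ (2 * m + 2))| ≤
        ∑ l, |ω l| * (C * (((M : ℝ) + 1) ^ (2 * M + 2) * θ ^ (2 * M + 2))) := by
      refine (Finset.abs_sum_le_sum_abs _ _).trans (Finset.sum_le_sum fun l _ => ?_)
      rw [abs_mul]
      refine mul_le_mul_of_nonneg_left ((hT _).trans ?_) (abs_nonneg _)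
      refine mul_le_mul_of_nonneg_left ?_ hC
      rw [mul_pow]
      refine mul_le_mul_of_nonneg_right ?_ hev
      refine pow_le_pow_left₀ (Nat.cast_nonneg _) ?_ _
      have : (l : ℕ) ≤ M + 1 := l.2.le
      exact_mod_cast this
    refine e5.trans ?_
    rw [← Finset.sum_mul]
    have : 0 ≤ W * ((M : ℝ) + 1) * θ ^ (2 * M + 2) := by positivity
    nlinarith
  · have e5 : |∑ l, ω l * kap ((l : ℕ) * θ)| ≤ ∑ l, |ω l| * (((M : ℝ) + 1) * (1 + |θ|)) := by
      refine (Finset.abs_sum_le_sum_abs _ _).trans (Finset.sum_le_sum fun l _ => ?_)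
      rw [abs_mul]
      refine mul_le_mul_of_nonneg_left ?_ (abs_nonneg _)
      rw [abs_of_nonneg (hkap _).1]
      refine (hkap _).2.trans ?_
      rw [abs_mul, Nat.abs_cast]
      have h1 : ((l : ℕ) : ℝ) ≤ M := by
        have : (l : ℕ) ≤ M := by have := l.2; omega
        exact_mod_cast this
      have h2 : ((l : ℕ) : ℝ) * |θ| ≤ M * |θ| := mul_le_mul_of_nonneg_right h1 (abs_nonneg _)
      have h3 : (0 : ℝ) ≤ M := Nat.cast_nonneg _
      nlinarith [abs_nonneg θ]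
    refine e5.trans ?_
    rw [← Finset.sum_mul]
    have h1 : 0 ≤ W * C * ((M : ℝ) + 1) ^ (2 * M + 2) * (1 + |θ|) := by positivity
    nlinarith

end Pool.Agent.E8helper99.Zn
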